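import Pool.Agent.Lib.MP_44343f_gt.Compl

namespace Pool.Agent.Lib.MP_44343f_gt

open scoped ContDiff ENNReal Topology

variable {n : ℕ}

theorem pd_chr_dmet (u : Fin n → (Fin n → ℝ) → ℝ) (D : Fin n → Fin n → (Fin n → ℝ) → ℝ)
    (hu : ∀ i, Differentiable ℝ (u i)) (hD : ∀ i j, Differentiable ℝ (D i j))
    (h : ∀ i j x, pd j (u i) x = D i j x) (l k i j : Fin n) (x : Fin n → ℝ) :
    pd l (Chr (dmet u) k i j) x
      = (if j = k then pd l (D k i) x else 0) + (if i = k then pd l (D k j) x else 0)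
      - (if i = j then Real.exp (2 * u i x - 2 * u k x) *
          ((2 * D i l x - 2 * D k l x) * D i k x + pd l (D i k) x) else 0) := by
  have e : Chr (dmet u) k i j = fun x => (if j = k then D k i x else 0)
      + (if i = k then D k j x else 0)
      - (if i = j then Real.exp (2 * u i x - 2 * u k x) * D i k x else 0) := by
    ext x
    simp only [chr_dmet u hu, h]
  have d1 : ∀ (p : Prop) [Decidable p] (f : (Fin n → ℝ) → ℝ), Differentiable ℝ f →
      Differentiable ℝ fun x => if p then f x else 0 := by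
    intro p _ f hf
    split_ifs
    · exact hf
    · fun_prop
  have hi := hu i
  have hk := hu k
  have hik := hD i k
  have h3 : Differentiable ℝ fun x => Real.exp (2 * u i x - 2 * u k x) * D i k x := by fun_prop
  rw [e, pd_sub (((d1 _ _ (hD k i)).fun_add (d1 _ _ (hD k j))) x) (d1 _ _ h3 x),
    pd_add (d1 _ _ (hD k i) x) (d1 _ _ (hD k j) x), pd_ite, pd_ite, pd_ite]
  congr 1
  split_ifs
  · rw [pd_mul (by fun_prop) (by fun_prop), pd_exp (by fun_prop),
      pd_sub (by fun_prop) (by fun_prop), pd_mul (by fun_prop) (by fun_prop),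
      pd_mul (by fun_prop) (by fun_prop), pd_const]
    simp only [h]
    ring
  · rfl

/-- conformal exponent -/
noncomputable def P0 (p : Fin 5 → ℝ) : ℝ := p 1 * p 0 + (3 + p 1 ^ 2) * p 0 ^ 2 / 2
/-- warping exponent -/
noncomputable def F0 (p : Fin 5 → ℝ) : ℝ := P0 p + (2 * p 1 ^ 2 + p 1 ^ 4)
/-- derivative -/
noncomputable def A0 (p : Fin 5 → ℝ) : ℝ := p 1 + (3 + p 1 ^ 2) * p 0
/-- derivative -/
noncomputable def B0 (p : Fin 5 → ℝ) : ℝ := p 0 + p 1 * p 0 ^ 2
/-- derivative -/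
noncomputable def C0 (p : Fin 5 → ℝ) : ℝ := B0 p + (4 * p 1 + 4 * p 1 ^ 3)

/-- exponents of the ambient metric -/
noncomputable def uN : Fin 5 → (Fin 5 → ℝ) → ℝ := ![fun _ => 0, P0, F0, F0, F0]

/-- first derivatives of the exponents -/
noncomputable def DN : Fin 5 → Fin 5 → (Fin 5 → ℝ) → ℝ :=
  ![![fun _ => 0, fun _ => 0, fun _ => 0, fun _ => 0, fun _ => 0],
    ![A0, B0, fun _ => 0, fun _ => 0, fun _ => 0],
    ![A0, C0, fun _ => 0, fun _ => 0, fun _ => 0],
    ![A0, C0, fun _ => 0, fun _ => 0, fun _ => 0],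
    ![A0, C0, fun _ => 0, fun _ => 0, fun _ => 0]]

theorem cd_P0 : ContDiff ℝ ∞ P0 := by unfold P0; fun_prop
theorem cd_F0 : ContDiff ℝ ∞ F0 := by unfold F0 P0; fun_prop
theorem cd_A0 : ContDiff ℝ ∞ A0 := by unfold A0; fun_prop
theorem cd_B0 : ContDiff ℝ ∞ B0 := by unfold B0; fun_prop
theorem cd_C0 : ContDiff ℝ ∞ C0 := by unfold C0 B0; fun_prop

theorem cd_uN (i : Fin 5) : ContDiff ℝ ∞ (uN i) := by
  fin_cases i
  exacts [contDiff_const, cd_P0, cd_F0, cd_F0, cd_F0]

theorem diff_uN (i : Fin 5) : Differentiable ℝ (uN i) := (cd_uN i).differentiable (by simp)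

theorem diff_DN (i j : Fin 5) : Differentiable ℝ (DN i j) := by
  have hA := cd_A0.differentiable (by simp)
  have hB := cd_B0.differentiable (by simp)
  have hC := cd_C0.differentiable (by simp)
  fin_cases i <;> fin_cases j <;> simp [DN, hA, hB, hC]

theorem pd_P0 (j : Fin 5) (p : Fin 5 → ℝ) :
    pd j P0 p = if j = 0 then A0 p else if j = 1 then B0 p else 0 := by
  unfold P0 A0 B0
  simp (disch := fun_prop) only [div_eq_mul_inv, pd_add, pd_mul, pd_pow, pd_const, pd_coord]
  fin_cases j <;> simp <;> ring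

theorem pd_F0 (j : Fin 5) (p : Fin 5 → ℝ) :
    pd j F0 p = if j = 0 then A0 p else if j = 1 then C0 p else 0 := by
  unfold F0 P0 A0 C0 B0
  simp (disch := fun_prop) only [div_eq_mul_inv, pd_add, pd_mul, pd_pow, pd_const, pd_coord]
  fin_cases j <;> simp <;> ring

theorem pd_A0 (j : Fin 5) (p : Fin 5 → ℝ) :
    pd j A0 p = if j = 0 then 3 + p 1 ^ 2 else if j = 1 then 1 + 2 * p 1 * p 0 else 0 := by
  unfold A0
  simp (disch := fun_prop) only [pd_add, pd_mul, pd_pow, pd_const, pd_coord]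
  fin_cases j <;> simp

theorem pd_B0 (j : Fin 5) (p : Fin 5 → ℝ) :
    pd j B0 p = if j = 0 then 1 + 2 * p 1 * p 0 else if j = 1 then p 0 ^ 2 else 0 := by
  unfold B0
  simp (disch := fun_prop) only [pd_add, pd_mul, pd_pow, pd_coord]
  fin_cases j <;> simp
  ring

theorem pd_C0 (j : Fin 5) (p : Fin 5 → ℝ) :
    pd j C0 p = if j = 0 then 1 + 2 * p 1 * p 0
      else if j = 1 then p 0 ^ 2 + 4 + 12 * p 1 ^ 2 else 0 := by
  unfold C0 B0
  simp (disch := fun_prop) only [pd_add, pd_mul, pd_pow, pd_const, pd_coord]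
  fin_cases j <;> simp <;> ring

theorem pd_uN (i j : Fin 5) (p : Fin 5 → ℝ) : pd j (uN i) p = DN i j p := by
  fin_cases i <;> fin_cases j <;> simp [uN, DN, pd_P0, pd_F0, pd_const]

/-- second derivatives of the exponents -/
noncomputable def DDN (p : Fin 5 → ℝ) (i j l : Fin 5) : ℝ :=
  if i = 0 then 0 else
    if j = 0 then (if l = 0 then 3 + p 1 ^ 2 else if l = 1 then 1 + 2 * p 1 * p 0 else 0) else
      if j = 1 then (if l = 0 then 1 + 2 * p 1 * p 0 else
        if l = 1 then (if i = 1 then p 0 ^ 2 else p 0 ^ 2 + 4 + 12 * p 1 ^ 2) else 0) else 0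

theorem pd_DN (i j l : Fin 5) (p : Fin 5 → ℝ) : pd l (DN i j) p = DDN p i j l := by
  fin_cases i <;> fin_cases j <;> simp [DN, DDN, pd_A0, pd_B0, pd_C0, pd_const]

theorem chrN (k i j : Fin 5) (p : Fin 5 → ℝ) :
    Chr (dmet uN) k i j p = (if j = k then DN k i p else 0) + (if i = k then DN k j p else 0)
      - (if i = j then Real.exp (2 * uN i p - 2 * uN k p) * DN i k p else 0) := by
  simp only [chr_dmet uN diff_uN, pd_uN]

theorem pd_chrN (l k i j : Fin 5) (p : Fin 5 → ℝ) :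
    pd l (Chr (dmet uN) k i j) p
      = (if j = k then DDN p k i l else 0) + (if i = k then DDN p k j l else 0)
      - (if i = j then Real.exp (2 * uN i p - 2 * uN k p) *
          ((2 * DN i l p - 2 * DN k l p) * DN i k p + DDN p i k l) else 0) := by
  simp only [pd_chr_dmet uN DN diff_uN diff_DN pd_uN, pd_DN]

end Pool.Agent.Lib.MP_44343f_gt
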