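import Pool.Agent.Lib.MP_44343f_gt.Diag

namespace Pool.Agent.Lib.MP_44343f_gt

open scoped ContDiff ENNReal Topology
open Filter

variable {n : ℕ}

theorem norm_le_sqrt_ip (u : Fin n → (Fin n → ℝ) → ℝ) (c : ℝ) (hc : ∀ i x, c ≤ u i x)
    (x X : Fin n → ℝ) : Real.exp c * ‖X‖ ≤ √(ip (dmet u) x X X) := by
  rw [← le_div_iff₀' (Real.exp_pos c), pi_norm_le_iff_of_nonneg (by positivity)]
  intro i
  rw [le_div_iff₀' (Real.exp_pos c)]
  apply Real.le_sqrt_of_sq_le
  rw [ip_dmet]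
  have h1 : Real.exp (2 * u i x) * X i * X i ≤ ∑ j, Real.exp (2 * u j x) * X j * X j :=
    Finset.single_le_sum (f := fun j => Real.exp (2 * u j x) * X j * X j)
      (fun j _ => by rw [mul_assoc]; exact mul_nonneg (Real.exp_pos _).le (mul_self_nonneg _))
      (Finset.mem_univ i)
  refine le_trans ?_ h1
  have h2 : Real.exp c ^ 2 ≤ Real.exp (2 * u i x) := by
    rw [← Real.exp_nat_mul]
    apply Real.exp_le_exp.2
    have := hc i x
    push_cast
    linarith
  rw [mul_pow, Real.norm_eq_abs, sq_abs, mul_assoc, ← sq]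
  exact mul_le_mul_of_nonneg_right h2 (sq_nonneg _)

theorem sqrt_ip_le (u : Fin n → (Fin n → ℝ) → ℝ) (x X : Fin n → ℝ) :
    √(ip (dmet u) x X X) ≤ √(∑ i, Real.exp (2 * u i x)) * ‖X‖ := by
  rw [← Real.sqrt_sq (norm_nonneg X), ← Real.sqrt_mul (by positivity)]
  apply Real.sqrt_le_sqrt
  rw [ip_dmet, Finset.sum_mul]
  refine Finset.sum_le_sum fun i _ => ?_
  rw [mul_assoc]
  refine mul_le_mul_of_nonneg_left ?_ (Real.exp_pos _).le
  have := norm_le_pi_norm X i
  rw [Real.norm_eq_abs] at this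
  rw [← sq, ← sq_abs]
  gcongr

theorem rdist_lower (u : Fin n → (Fin n → ℝ) → ℝ) (c : ℝ) (hc : ∀ i x, c ≤ u i x)
    (x y : Fin n → ℝ) : ENNReal.ofReal (Real.exp c * ‖y - x‖) ≤ rdist (dmet u) x y := by
  simp only [rdist, le_iInf_iff]
  rintro γ hγ rfl rfl
  have h := enorm_sub_le_lintegral_deriv_of_contDiffOn_Icc hγ zero_le_one
  calc ENNReal.ofReal (Real.exp c * ‖γ 1 - γ 0‖)
      = ENNReal.ofReal (Real.exp c) * ‖γ 1 - γ 0‖ₑ := by
        rw [ENNReal.ofReal_mul (Real.exp_pos c).le, ofReal_norm]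
    _ ≤ ENNReal.ofReal (Real.exp c) * ∫⁻ t in Set.Icc (0 : ℝ) 1, ‖deriv γ t‖ₑ := by gcongr
    _ = ∫⁻ t in Set.Icc (0 : ℝ) 1, ENNReal.ofReal (Real.exp c) * ‖deriv γ t‖ₑ := by
        rw [MeasureTheory.lintegral_const_mul' _ _ ENNReal.ofReal_ne_top]
    _ ≤ _ := by
        refine MeasureTheory.lintegral_mono fun t => ?_
        rw [← ofReal_norm, ← ENNReal.ofReal_mul (Real.exp_pos c).le]
        exact ENNReal.ofReal_le_ofReal (norm_le_sqrt_ip u c hc _ _)

theorem rdist_upper (u : Fin n → (Fin n → ℝ) → ℝ) (x y : Fin n → ℝ) (C : ℝ)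
    (hC : ∀ z ∈ segment ℝ x y, √(∑ i, Real.exp (2 * u i z)) ≤ C) :
    rdist (dmet u) x y ≤ ENNReal.ofReal (C * ‖y - x‖) := by
  let γ : ℝ → Fin n → ℝ := fun t => x + t • (y - x)
  have hγ : ContDiffOn ℝ 1 γ (Set.Icc 0 1) := by
    apply ContDiff.contDiffOn
    fun_prop
  have hd : ∀ t, deriv γ t = y - x := fun t => by
    have : HasDerivAt γ ((1 : ℝ) • (y - x)) t :=
      ((hasDerivAt_id t).smul_const (y - x)).const_add x
    simpa using this.deriv
  refine le_trans (iInf_le_of_le γ (iInf_le_of_le hγ (iInf_le_of_le (by simp [γ])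
    (iInf_le _ (by simp [γ]))))) ?_
  calc ∫⁻ t in Set.Icc (0 : ℝ) 1, ENNReal.ofReal √(ip (dmet u) (γ t) (deriv γ t) (deriv γ t))
      ≤ ∫⁻ t in Set.Icc (0 : ℝ) 1, ENNReal.ofReal (C * ‖y - x‖) := by
        refine MeasureTheory.setLIntegral_mono' measurableSet_Icc fun t ht => ?_
        rw [hd]
        refine ENNReal.ofReal_le_ofReal ((sqrt_ip_le u _ _).trans ?_)
        refine mul_le_mul_of_nonneg_right (hC _ ?_) (norm_nonneg _)
        rw [segment_eq_image']
        exact ⟨t, ht, rfl⟩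
    _ = _ := by simp

theorem complete_dmet (u : Fin n → (Fin n → ℝ) → ℝ) (hu : ∀ i, Continuous (u i)) (c : ℝ)
    (hc : ∀ i x, c ≤ u i x) : Complete (dmet u) := by
  intro a ha
  have hcau : CauchySeq a := by
    rw [Metric.cauchySeq_iff]
    intro ε hε
    obtain ⟨N, hN⟩ := ha (ENNReal.ofReal (Real.exp c * ε)) (by
      rw [gt_iff_lt, ENNReal.ofReal_pos]; positivity)
    refine ⟨N, fun p hp q hq => ?_⟩
    have h := (rdist_lower u c hc _ _).trans_lt (hN p hp q hq)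
    rw [ENNReal.ofReal_lt_ofReal_iff (by positivity)] at h
    rw [dist_comm, dist_eq_norm]
    exact lt_of_mul_lt_mul_left h (Real.exp_pos c).le
  obtain ⟨x, hx⟩ := cauchySeq_tendsto_of_complete hcau
  refine ⟨x, ?_⟩
  have hcont : Continuous fun z => √(∑ i, Real.exp (2 * u i z)) := by fun_prop
  obtain ⟨C, hC⟩ := (isCompact_closedBall x 1).bddAbove_image hcont.continuousOn
  have hlim : Tendsto (fun p => ENNReal.ofReal (C * ‖x - a p‖)) atTop (𝓝 0) := by
    have h1 : Tendsto (fun p => C * ‖x - a p‖) atTop (𝓝 (C * ‖x - x‖)) :=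
      ((tendsto_const_nhds.sub hx).norm).const_mul C
    simpa using ENNReal.tendsto_ofReal h1
  refine tendsto_of_tendsto_of_tendsto_of_le_of_le' tendsto_const_nhds hlim
    (Eventually.of_forall fun _ => zero_le) ?_
  filter_upwards [hx.eventually (Metric.closedBall_mem_nhds x one_pos)] with p hp
  refine rdist_upper u _ _ C fun z hz => hC ⟨z, ?_, rfl⟩
  exact (convex_closedBall x 1).segment_subset hp (Metric.mem_closedBall_self zero_le_one) hz

end Pool.Agent.Lib.MP_44343f_gt
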