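import Pool.Agent.Lib.MP_44343f_gt.Ambient

namespace Pool.Agent.Lib.MP_44343f_gt

open scoped ContDiff ENNReal Topology

/-- radial curvature -/
noncomputable def kN (p : Fin 5 → ℝ) : ℝ := 3 + p 1 ^ 2 + A0 p ^ 2
/-- mixed term -/
noncomputable def mN (p : Fin 5 → ℝ) : ℝ := 1 + 2 * p 1 * p 0
/-- tangential curvature -/
noncomputable def qN (p : Fin 5 → ℝ) : ℝ :=
  p 0 ^ 2 + 4 + 12 * p 1 ^ 2 + C0 p ^ 2 - B0 p * C0 p + Real.exp (2 * P0 p) * A0 p ^ 2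
/-- fibre curvature -/
noncomputable def rN (p : Fin 5 → ℝ) : ℝ :=
  Real.exp (2 * F0 p) * A0 p ^ 2 + Real.exp (2 * F0 p - 2 * P0 p) * C0 p ^ 2

theorem expF (p : Fin 5 → ℝ) :
    Real.exp (2 * F0 p) = Real.exp (2 * P0 p) * Real.exp (2 * F0 p - 2 * P0 p) := by
  rw [← Real.exp_add]; congr 1; ring

set_option maxRecDepth 20000 in
theorem riem0 (p X Y Z : Fin 5 → ℝ) : Riem (dmet uN) p X Y Z 0 =
    - (kN p * Real.exp (2 * P0 p) * (X 0 * Y 1 - X 1 * Y 0) * Z 1)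
    - Real.exp (2 * F0 p) *
      ((kN p * (X 0 * Y 2 - X 2 * Y 0) + mN p * (X 1 * Y 2 - X 2 * Y 1)) * Z 2
      + (kN p * (X 0 * Y 3 - X 3 * Y 0) + mN p * (X 1 * Y 3 - X 3 * Y 1)) * Z 3
      + (kN p * (X 0 * Y 4 - X 4 * Y 0) + mN p * (X 1 * Y 4 - X 4 * Y 1)) * Z 4) := by
  simp only [Riem, Fin.sum_univ_five, chrN, pd_chrN]
  simp [DN, DDN, uN, kN, mN]
  rw [expF]
  ring

set_option maxRecDepth 20000 in
theorem riem1 (p X Y Z : Fin 5 → ℝ) : Riem (dmet uN) p X Y Z 1 =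
    kN p * (X 0 * Y 1 - X 1 * Y 0) * Z 0
    - Real.exp (2 * F0 p - 2 * P0 p) *
      ((mN p * (X 0 * Y 2 - X 2 * Y 0) + qN p * (X 1 * Y 2 - X 2 * Y 1)) * Z 2
      + (mN p * (X 0 * Y 3 - X 3 * Y 0) + qN p * (X 1 * Y 3 - X 3 * Y 1)) * Z 3
      + (mN p * (X 0 * Y 4 - X 4 * Y 0) + qN p * (X 1 * Y 4 - X 4 * Y 1)) * Z 4) := by
  simp only [Riem, Fin.sum_univ_five, chrN, pd_chrN]
  simp [DN, DDN, uN, kN, mN, qN]
  rw [expF]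
  ring

set_option maxRecDepth 20000 in
theorem riem2 (p X Y Z : Fin 5 → ℝ) : Riem (dmet uN) p X Y Z 2 =
    (kN p * (X 0 * Y 2 - X 2 * Y 0) + mN p * (X 1 * Y 2 - X 2 * Y 1)) * Z 0
    + (mN p * (X 0 * Y 2 - X 2 * Y 0) + qN p * (X 1 * Y 2 - X 2 * Y 1)) * Z 1
    - rN p * ((X 2 * Y 3 - X 3 * Y 2) * Z 3 + (X 2 * Y 4 - X 4 * Y 2) * Z 4) := by
  simp only [Riem, Fin.sum_univ_five, chrN, pd_chrN]
  simp [DN, DDN, uN, kN, mN, qN, rN]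
  ring

set_option maxRecDepth 20000 in
theorem riem3 (p X Y Z : Fin 5 → ℝ) : Riem (dmet uN) p X Y Z 3 =
    (kN p * (X 0 * Y 3 - X 3 * Y 0) + mN p * (X 1 * Y 3 - X 3 * Y 1)) * Z 0
    + (mN p * (X 0 * Y 3 - X 3 * Y 0) + qN p * (X 1 * Y 3 - X 3 * Y 1)) * Z 1
    - rN p * ((X 3 * Y 2 - X 2 * Y 3) * Z 2 + (X 3 * Y 4 - X 4 * Y 3) * Z 4) := by
  simp only [Riem, Fin.sum_univ_five, chrN, pd_chrN]
  simp [DN, DDN, uN, kN, mN, qN, rN]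
  ring

set_option maxRecDepth 20000 in
theorem riem4 (p X Y Z : Fin 5 → ℝ) : Riem (dmet uN) p X Y Z 4 =
    (kN p * (X 0 * Y 4 - X 4 * Y 0) + mN p * (X 1 * Y 4 - X 4 * Y 1)) * Z 0
    + (mN p * (X 0 * Y 4 - X 4 * Y 0) + qN p * (X 1 * Y 4 - X 4 * Y 1)) * Z 1
    - rN p * ((X 4 * Y 2 - X 2 * Y 4) * Z 2 + (X 4 * Y 3 - X 3 * Y 4) * Z 3) := by
  simp only [Riem, Fin.sum_univ_five, chrN, pd_chrN]
  simp [DN, DDN, uN, kN, mN, qN, rN]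
  ring

theorem kN_ge (p : Fin 5 → ℝ) : 1 ≤ kN p := by
  unfold kN; nlinarith [sq_nonneg (p 1), sq_nonneg (A0 p)]

theorem qN_ge (p : Fin 5 → ℝ) : mN p ^ 2 ≤ qN p := by
  have h1 : 0 ≤ Real.exp (2 * P0 p) * A0 p ^ 2 := by positivity
  have h2 : C0 p ^ 2 - B0 p * C0 p = (4 * p 1 + 4 * p 1 ^ 3) ^ 2 +
      4 * (1 + p 1 ^ 2) * (p 1 * p 0 + (p 1 * p 0) ^ 2) := by
    unfold C0 B0; ring
  have h3 : 0 ≤ p 1 ^ 2 * (1 + 2 * (p 1 * p 0)) ^ 2 := by positivity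
  unfold qN mN
  nlinarith [sq_nonneg (p 0), sq_nonneg (p 1), sq_nonneg (4 * p 1 + 4 * p 1 ^ 3)]

theorem rN_nonneg (p : Fin 5 → ℝ) : 0 ≤ rN p := by unfold rN; positivity

theorem quad_nonneg (p : Fin 5 → ℝ) (a b : ℝ) :
    0 ≤ kN p * a ^ 2 + 2 * mN p * a * b + qN p * b ^ 2 := by
  nlinarith [kN_ge p, qN_ge p, sq_nonneg (a + mN p * b), sq_nonneg a, sq_nonneg b,
    mul_le_mul_of_nonneg_right (kN_ge p) (sq_nonneg a),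
    mul_le_mul_of_nonneg_right (qN_ge p) (sq_nonneg b)]

theorem curv_nonpos (p X Y : Fin 5 → ℝ) : ip (dmet uN) p (Riem (dmet uN) p X Y Y) X ≤ 0 := by
  have e : ip (dmet uN) p (Riem (dmet uN) p X Y Y) X =
      - (kN p * Real.exp (2 * P0 p) * (X 0 * Y 1 - X 1 * Y 0) ^ 2
      + Real.exp (2 * F0 p) * (
        (kN p * (X 0 * Y 2 - X 2 * Y 0) ^ 2
          + 2 * mN p * (X 0 * Y 2 - X 2 * Y 0) * (X 1 * Y 2 - X 2 * Y 1)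
          + qN p * (X 1 * Y 2 - X 2 * Y 1) ^ 2)
        + (kN p * (X 0 * Y 3 - X 3 * Y 0) ^ 2
          + 2 * mN p * (X 0 * Y 3 - X 3 * Y 0) * (X 1 * Y 3 - X 3 * Y 1)
          + qN p * (X 1 * Y 3 - X 3 * Y 1) ^ 2)
        + (kN p * (X 0 * Y 4 - X 4 * Y 0) ^ 2
          + 2 * mN p * (X 0 * Y 4 - X 4 * Y 0) * (X 1 * Y 4 - X 4 * Y 1)
          + qN p * (X 1 * Y 4 - X 4 * Y 1) ^ 2)
        + rN p * ((X 2 * Y 3 - X 3 * Y 2) ^ 2 + (X 2 * Y 4 - X 4 * Y 2) ^ 2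
          + (X 3 * Y 4 - X 4 * Y 3) ^ 2))) := by
    rw [ip_dmet, Fin.sum_univ_five, riem0, riem1, riem2, riem3, riem4]
    simp [uN]
    rw [expF]
    ring
  rw [e, neg_nonpos]
  have h0 : 0 ≤ kN p := zero_le_one.trans (kN_ge p)
  have h1 := rN_nonneg p
  have h2 := quad_nonneg p (X 0 * Y 2 - X 2 * Y 0) (X 1 * Y 2 - X 2 * Y 1)
  have h3 := quad_nonneg p (X 0 * Y 3 - X 3 * Y 0) (X 1 * Y 3 - X 3 * Y 1)
  have h4 := quad_nonneg p (X 0 * Y 4 - X 4 * Y 0) (X 1 * Y 4 - X 4 * Y 1)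
  positivity

theorem sec_nonpos (p X Y : Fin 5 → ℝ) : sec (dmet uN) p X Y ≤ 0 :=
  div_nonpos_of_nonpos_of_nonneg (curv_nonpos p X Y) (ip_dmet_cs uN p X Y)

theorem uN_ge (i : Fin 5) (p : Fin 5 → ℝ) : -1 ≤ uN i p := by
  have h1 : -1 ≤ P0 p := by
    unfold P0; nlinarith [sq_nonneg (p 0), sq_nonneg (1 + p 1 * p 0)]
  have h2 : -1 ≤ F0 p := by
    unfold F0; nlinarith [sq_nonneg (p 1), sq_nonneg (p 1 ^ 2)]
  fin_cases i <;> simp [uN, h1, h2]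

theorem complete_N : Complete (dmet uN) :=
  complete_dmet uN (fun i => (cd_uN i).continuous) (-1) uN_ge

end Pool.Agent.Lib.MP_44343f_gt
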