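import Mathlib

/-!
Riemannian geometry on `ℝⁿ = Fin n → ℝ` in the global coordinates `x₀, …, x_{n-1}`.
A metric is a matrix-valued function `g x i j = g(∂ᵢ, ∂ⱼ)`; tangent vectors are elements of `ℝⁿ`.
-/

namespace Pool.Agent.Lib.MP_44343f_gt

open scoped ContDiff ENNReal Topology

variable {m n : ℕ}

/-- The derivative `∂ᵢ f (x)` along the `i`-th coordinate vector. -/
noncomputable def pd {F : Type} [NormedAddCommGroup F] [NormedSpace ℝ F] (i : Fin n)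
    (f : (Fin n → ℝ) → F) (x : Fin n → ℝ) : F :=
  fderiv ℝ f x (Pi.single i 1)

/-- `g` is a smooth Riemannian metric on `ℝⁿ`: smooth entries, symmetric positive definite. -/
def IsMetric (g : (Fin n → ℝ) → Matrix (Fin n) (Fin n) ℝ) : Prop :=
  (∀ i j, ContDiff ℝ ∞ fun x => g x i j) ∧ ∀ x, (g x).PosDef

/-- The inner product `g_x(X, Y)`. -/
def ip (g : (Fin n → ℝ) → Matrix (Fin n) (Fin n) ℝ) (x X Y : Fin n → ℝ) : ℝ :=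
  ∑ i, ∑ j, g x i j * X i * Y j

/-- Christoffel symbols of the Levi-Civita connection:
`Γᵏᵢⱼ = ½ gᵏˡ (∂ᵢ gⱼₗ + ∂ⱼ gᵢₗ - ∂ₗ gᵢⱼ)`, so that `∇_{∂ᵢ} ∂ⱼ = Γᵏᵢⱼ ∂ₖ`. -/
noncomputable def Chr (g : (Fin n → ℝ) → Matrix (Fin n) (Fin n) ℝ) (k i j : Fin n)
    (x : Fin n → ℝ) : ℝ :=
  1 / 2 * ∑ l, (g x)⁻¹ k l *
    (pd i (fun y => g y j l) x + pd j (fun y => g y i l) x - pd l (fun y => g y i j) x)

/-- The curvature tensor `R(X, Y) Z` at `x`, with `R(X, Y) = [∇_X, ∇_Y] - ∇_{[X, Y]}`: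
`R(∂ᵢ, ∂ⱼ) ∂ₖ = (∂ᵢ Γˡⱼₖ - ∂ⱼ Γˡᵢₖ + Γˡᵢₚ Γᵖⱼₖ - Γˡⱼₚ Γᵖᵢₖ) ∂ₗ`. -/
noncomputable def Riem (g : (Fin n → ℝ) → Matrix (Fin n) (Fin n) ℝ) (x X Y Z : Fin n → ℝ) :
    Fin n → ℝ := fun l =>
  ∑ i, ∑ j, ∑ k, (pd i (Chr g l j k) x - pd j (Chr g l i k) x +
    ∑ p, (Chr g l i p x * Chr g p j k x - Chr g l j p x * Chr g p i k x)) * X i * Y j * Z k

/-- The sectional curvature of the plane spanned by `X, Y` at `x`. -/
noncomputable def sec (g : (Fin n → ℝ) → Matrix (Fin n) (Fin n) ℝ) (x X Y : Fin n → ℝ) : ℝ :=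
  ip g x (Riem g x X Y Y) X / (ip g x X X * ip g x Y Y - ip g x X Y ^ 2)

/-- The induced metric `φ^* h`. -/
noncomputable def pull (h : (Fin n → ℝ) → Matrix (Fin n) (Fin n) ℝ)
    (φ : (Fin m → ℝ) → Fin n → ℝ) (x : Fin m → ℝ) : Matrix (Fin m) (Fin m) ℝ :=
  Matrix.of fun i j => ip h (φ x) (pd i φ x) (pd j φ x)

/-- The pull-back connection `∇^φ_{∂ᵢ} V` on vector fields `V` along `φ`. -/
noncomputable def cov (h : (Fin n → ℝ) → Matrix (Fin n) (Fin n) ℝ)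
    (φ : (Fin m → ℝ) → Fin n → ℝ) (i : Fin m) (V : (Fin m → ℝ) → Fin n → ℝ) (x : Fin m → ℝ) :
    Fin n → ℝ := fun a =>
  pd i V x a + ∑ b, ∑ c, Chr h a b c (φ x) * pd i φ x b * V x c

/-- The tension field `τ(φ) = trace_g ∇dφ` for `g = φ^* h`; it is `m` times the mean curvature
vector. -/
noncomputable def tension (h : (Fin n → ℝ) → Matrix (Fin n) (Fin n) ℝ)
    (φ : (Fin m → ℝ) → Fin n → ℝ) (x : Fin m → ℝ) : Fin n → ℝ :=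
  ∑ i, ∑ j, (pull h φ x)⁻¹ i j •
    (cov h φ i (pd j φ) x - ∑ k, Chr (pull h φ) k i j x • pd k φ x)

/-- The bitension field
`τ₂(φ) = trace_g (∇^φ ∇^φ - ∇^φ_{∇^M}) τ(φ) - trace_g R^N(dφ ·, τ(φ)) dφ ·` for `g = φ^* h`. -/
noncomputable def bitension (h : (Fin n → ℝ) → Matrix (Fin n) (Fin n) ℝ)
    (φ : (Fin m → ℝ) → Fin n → ℝ) (x : Fin m → ℝ) : Fin n → ℝ :=
  ∑ i, ∑ j, (pull h φ x)⁻¹ i j •
    (cov h φ i (cov h φ j (tension h φ)) x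
      - ∑ k, Chr (pull h φ) k i j x • cov h φ k (tension h φ) x
      - Riem h (φ x) (pd i φ x) (tension h φ x) (pd j φ x))

/-- The Riemannian distance: the infimum of the `g`-lengths of `C¹` paths from `x` to `y`. -/
noncomputable def rdist (g : (Fin n → ℝ) → Matrix (Fin n) (Fin n) ℝ) (x y : Fin n → ℝ) : ℝ≥0∞ :=
  ⨅ (γ : ℝ → Fin n → ℝ) (_ : ContDiffOn ℝ 1 γ (Set.Icc 0 1)) (_ : γ 0 = x) (_ : γ 1 = y),
    ∫⁻ t in Set.Icc (0 : ℝ) 1, ENNReal.ofReal √(ip g (γ t) (deriv γ t) (deriv γ t))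

/-- `(ℝⁿ, g)` is complete: every Cauchy sequence for the Riemannian distance converges for it. -/
def Complete (g : (Fin n → ℝ) → Matrix (Fin n) (Fin n) ℝ) : Prop :=
  ∀ u : ℕ → Fin n → ℝ, (∀ ε > 0, ∃ N, ∀ p ≥ N, ∀ q ≥ N, rdist g (u p) (u q) < ε) →
    ∃ x, Filter.Tendsto (fun p => rdist g (u p) x) Filter.atTop (𝓝 0)

end Pool.Agent.Lib.MP_44343f_gt
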