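import Pool.Agent.Lib.MP_44343f_gt.Defs

namespace Pool.Agent.Lib.MP_44343f_gt

open scoped ContDiff ENNReal Topology

variable {m n : ℕ}

section pdcalc

variable {i : Fin n} {x : Fin n → ℝ} {f g : (Fin n → ℝ) → ℝ}

theorem pd_const (c : ℝ) : pd i (fun _ => c) x = 0 := by simp [pd]

theorem pd_add (hf : DifferentiableAt ℝ f x) (hg : DifferentiableAt ℝ g x) :
    pd i (fun y => f y + g y) x = pd i f x + pd i g x := by
  simp [pd, fderiv_fun_add hf hg]

theorem pd_sub (hf : DifferentiableAt ℝ f x) (hg : DifferentiableAt ℝ g x) :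
    pd i (fun y => f y - g y) x = pd i f x - pd i g x := by
  simp [pd, fderiv_fun_sub hf hg]

theorem pd_neg : pd i (fun y => - f y) x = - pd i f x := by
  simp [pd, fderiv_fun_neg]

theorem pd_mul (hf : DifferentiableAt ℝ f x) (hg : DifferentiableAt ℝ g x) :
    pd i (fun y => f y * g y) x = pd i f x * g x + f x * pd i g x := by
  simp [pd, fderiv_fun_mul hf hg]; ring

theorem pd_pow (k : ℕ) (hf : DifferentiableAt ℝ f x) :
    pd i (fun y => f y ^ k) x = k * f x ^ (k - 1) * pd i f x := by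
  have := (hf.hasFDerivAt.pow k).fderiv
  simp only [pd]
  rw [this]
  simp

theorem pd_exp (hf : DifferentiableAt ℝ f x) :
    pd i (fun y => Real.exp (f y)) x = Real.exp (f x) * pd i f x := by
  simp [pd, fderiv_exp hf]

theorem pd_coord (a : Fin n) : pd i (fun y : Fin n → ℝ => y a) x = if a = i then 1 else 0 := by
  have : fderiv ℝ (fun y : Fin n → ℝ => y a) x = ContinuousLinearMap.proj a :=
    (hasFDerivAt_apply (𝕜 := ℝ) a x).fderiv
  simp [pd, this, Pi.single_apply]

theorem pd_ite (p : Prop) [Decidable p] :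
    pd i (fun y => if p then f y else 0) x = if p then pd i f x else 0 := by
  split_ifs
  · rfl
  · exact pd_const 0

theorem pd_apply {V : (Fin n → ℝ) → Fin m → ℝ} (hV : DifferentiableAt ℝ V x) (a : Fin m) :
    pd i V x a = pd i (fun y => V y a) x := by
  have := fderiv_apply (𝕜 := ℝ) hV a
  simp only [pd, this]
  rfl

end pdcalc

/-- diagonal metric -/
noncomputable def dmet (u : Fin n → (Fin n → ℝ) → ℝ) (x : Fin n → ℝ) :
    Matrix (Fin n) (Fin n) ℝ :=
  Matrix.diagonal fun i => Real.exp (2 * u i x)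

theorem dmet_inv (u : Fin n → (Fin n → ℝ) → ℝ) (x : Fin n → ℝ) :
    (dmet u x)⁻¹ = Matrix.diagonal fun i => (Real.exp (2 * u i x))⁻¹ := by
  apply Matrix.inv_eq_right_inv
  rw [dmet, Matrix.diagonal_mul_diagonal, ← Matrix.diagonal_one]
  congr 1
  ext i
  exact mul_inv_cancel₀ (Real.exp_ne_zero _)

theorem dmet_isMetric (u : Fin n → (Fin n → ℝ) → ℝ) (hu : ∀ i, ContDiff ℝ ∞ (u i)) :
    IsMetric (dmet u) := by
  refine ⟨fun i j => ?_, fun x => ?_⟩
  · simp only [dmet, Matrix.diagonal_apply]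
    split_ifs
    · exact Real.contDiff_exp.comp (contDiff_const.mul (hu i))
    · exact contDiff_const
  · rw [dmet, Matrix.posDef_diagonal_iff]
    intro i
    exact Real.exp_pos _

theorem pd_dmet (u : Fin n → (Fin n → ℝ) → ℝ) (hu : ∀ i, Differentiable ℝ (u i)) (l i j : Fin n)
    (x : Fin n → ℝ) :
    pd l (fun y => dmet u y i j) x
      = if i = j then Real.exp (2 * u i x) * (2 * pd l (u i) x) else 0 := by
  simp only [dmet, Matrix.diagonal_apply]
  rw [pd_ite]
  split_ifs
  · have := hu i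
    rw [pd_exp (by fun_prop), pd_mul (by fun_prop) (by fun_prop), pd_const]
    simp
  · rfl

theorem chr_dmet (u : Fin n → (Fin n → ℝ) → ℝ) (hu : ∀ i, Differentiable ℝ (u i)) (k i j : Fin n)
    (x : Fin n → ℝ) :
    Chr (dmet u) k i j x = (if j = k then pd i (u k) x else 0) + (if i = k then pd j (u k) x else 0)
      - (if i = j then Real.exp (2 * u i x - 2 * u k x) * pd k (u i) x else 0) := by
  rw [Chr, dmet_inv, Finset.sum_eq_single k]
  · simp only [pd_dmet u hu, Matrix.diagonal_apply_eq, Real.exp_sub]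
    have := Real.exp_ne_zero (2 * u k x)
    split_ifs with h1 h2 h3 <;> subst_vars <;> field_simp <;> ring
  · intro l _ hl
    simp [Matrix.diagonal_apply_ne _ hl.symm]
  · simp

theorem ip_dmet (u : Fin n → (Fin n → ℝ) → ℝ) (x X Y : Fin n → ℝ) :
    ip (dmet u) x X Y = ∑ i, Real.exp (2 * u i x) * X i * Y i := by
  simp [ip, dmet, Matrix.diagonal_apply]

theorem ip_dmet_cs (u : Fin n → (Fin n → ℝ) → ℝ) (x X Y : Fin n → ℝ) :
    0 ≤ ip (dmet u) x X X * ip (dmet u) x Y Y - ip (dmet u) x X Y ^ 2 := by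
  simp only [ip_dmet]
  have h := Finset.sum_mul_sq_le_sq_mul_sq Finset.univ (fun i => Real.exp (u i x) * X i)
    (fun i => Real.exp (u i x) * Y i)
  have e : ∀ i, Real.exp (2 * u i x) = Real.exp (u i x) ^ 2 := fun i => by
    rw [← Real.exp_nat_mul]; simp
  simp only [e]
  have h1 : ∀ Z W : Fin n → ℝ, ∑ i, Real.exp (u i x) ^ 2 * Z i * W i
      = ∑ i, (Real.exp (u i x) * Z i) * (Real.exp (u i x) * W i) := fun Z W =>
    Finset.sum_congr rfl fun i _ => by ring
  simp only [h1, ← sq]
  linarith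

end Pool.Agent.Lib.MP_44343f_gt
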