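import Pool.Agent.Lib.MP_44343f_gt.Curv

namespace Pool.Agent.Lib.MP_44343f_gt

open scoped ContDiff ENNReal Topology

/-- the hyperplane -/
def emb (q : Fin 4 → ℝ) : Fin 5 → ℝ := ![0, q 0, q 1, q 2, q 3]

/-- warping exponent on the hypersurface -/
def f0 (q : Fin 4 → ℝ) : ℝ := 2 * q 0 ^ 2 + q 0 ^ 4

/-- exponents of the induced metric -/
def uM : Fin 4 → (Fin 4 → ℝ) → ℝ := ![fun _ => 0, f0, f0, f0]

theorem cd_emb : ContDiff ℝ ∞ emb := by
  rw [contDiff_pi]
  intro a
  fin_cases a <;> simp [emb] <;> fun_prop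

theorem pd_emb (i : Fin 4) (x : Fin 4 → ℝ) (a : Fin 5) :
    pd i emb x a = if a = i.succ then 1 else 0 := by
  rw [pd_apply (cd_emb.differentiable (by simp) x)]
  fin_cases a <;> fin_cases i <;> simp [emb, pd_const, pd_coord]

theorem pd_emb' (i : Fin 4) : pd i emb = fun _ a => if a = i.succ then 1 else 0 := by
  ext x a; exact pd_emb i x a

theorem cd_f0 : ContDiff ℝ ∞ f0 := by unfold f0; fun_prop

theorem cd_uM (i : Fin 4) : ContDiff ℝ ∞ (uM i) := by
  fin_cases i
  exacts [contDiff_const, cd_f0, cd_f0, cd_f0]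

theorem diff_uM (i : Fin 4) : Differentiable ℝ (uM i) := (cd_uM i).differentiable (by simp)

theorem pd_f0 (j : Fin 4) (q : Fin 4 → ℝ) :
    pd j f0 q = if j = 0 then 4 * q 0 + 4 * q 0 ^ 3 else 0 := by
  unfold f0
  simp (disch := fun_prop) only [pd_add, pd_mul, pd_pow, pd_const, pd_coord]
  fin_cases j <;> simp
  ring

theorem P0_emb (q : Fin 4 → ℝ) : P0 (emb q) = 0 := by simp [P0, emb]
theorem F0_emb (q : Fin 4 → ℝ) : F0 (emb q) = f0 q := by simp [F0, P0, emb, f0]
theorem A0_emb (q : Fin 4 → ℝ) : A0 (emb q) = q 0 := by simp [A0, emb]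
theorem B0_emb (q : Fin 4 → ℝ) : B0 (emb q) = 0 := by simp [B0, emb]
theorem C0_emb (q : Fin 4 → ℝ) : C0 (emb q) = 4 * q 0 + 4 * q 0 ^ 3 := by simp [C0, B0, emb]
theorem kN_emb (q : Fin 4 → ℝ) : kN (emb q) = 3 + 2 * q 0 ^ 2 := by
  simp [kN, A0, emb]; ring
theorem mN_emb (q : Fin 4 → ℝ) : mN (emb q) = 1 := by simp [mN, emb]

theorem pull_emb : pull (dmet uN) emb = dmet uM := by
  ext x i j
  simp only [pull, Matrix.of_apply, ip_dmet, pd_emb, Fin.sum_univ_five]
  fin_cases i <;> fin_cases j <;> simp [dmet, uN, uM, P0_emb, F0_emb]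

theorem chrM (k i j : Fin 4) (q : Fin 4 → ℝ) :
    Chr (dmet uM) k i j q = (if j = k then pd i (uM k) q else 0)
      + (if i = k then pd j (uM k) q else 0)
      - (if i = j then Real.exp (2 * uM i q - 2 * uM k q) * pd k (uM i) q else 0) :=
  chr_dmet uM diff_uM k i j q

theorem pd_constv (i : Fin 4) (x : Fin 4 → ℝ) (v : Fin 5 → ℝ) : pd i (fun _ => v) x = 0 := by
  simp [pd]

/-- the tension field -/
def tau (q : Fin 4 → ℝ) : Fin 5 → ℝ := ![-4 * q 0, 0, 0, 0, 0]

set_option maxRecDepth 20000 in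
theorem tension_emb : tension (dmet uN) emb = tau := by
  ext x a
  have hE := Real.exp_ne_zero (2 * f0 x)
  simp only [tension, pull_emb, dmet_inv, Finset.sum_apply, Pi.smul_apply, Pi.sub_apply, cov,
    pd_emb', pd_constv, smul_eq_mul]
  simp only [Fin.sum_univ_four, Fin.sum_univ_five, chrM, chrN]
  fin_cases a <;>
    simp [uN, uM, DN, pd_f0, pd_const, P0_emb, F0_emb, A0_emb, B0_emb, C0_emb, tau] <;>
    field_simp <;> ring

theorem diff_tau : Differentiable ℝ tau := by
  rw [differentiable_pi]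
  intro a
  fin_cases a <;> simp [tau] <;> fun_prop

theorem pd_tau (j : Fin 4) (x : Fin 4 → ℝ) (a : Fin 5) :
    pd j tau x a = if a = 0 ∧ j = 0 then -4 else 0 := by
  rw [pd_apply (diff_tau x)]
  fin_cases a <;> fin_cases j <;>
    simp (disch := fun_prop) [tau, pd_const, pd_coord, pd_neg, pd_mul]

/-- the covariant derivative of the tension field -/
def ctau (j : Fin 4) (q : Fin 4 → ℝ) : Fin 5 → ℝ := fun a =>
  if a = 0 ∧ j = 0 then -4 else if a = j.succ then -4 * q 0 ^ 2 else 0

theorem cov_tau (j : Fin 4) : cov (dmet uN) emb j tau = ctau j := by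
  ext x a
  simp only [cov, pd_emb', pd_tau, Fin.sum_univ_five, chrN]
  fin_cases a <;> fin_cases j <;> simp [uN, DN, A0_emb, tau, ctau] <;> ring

theorem diff_ctau (j : Fin 4) : Differentiable ℝ (ctau j) := by
  rw [differentiable_pi]
  intro a
  unfold ctau
  split_ifs <;> fun_prop

theorem pd_ctau (i j : Fin 4) (x : Fin 4 → ℝ) (a : Fin 5) :
    pd i (ctau j) x a = if a = j.succ ∧ i = 0 then -8 * x 0 else 0 := by
  rw [pd_apply (diff_ctau j x)]
  fin_cases a <;> fin_cases j <;> fin_cases i <;>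
    simp (disch := fun_prop) [ctau, pd_const, pd_coord, pd_neg, pd_mul, pd_pow] <;> ring

set_option maxRecDepth 20000 in
theorem bitension_emb (x : Fin 4 → ℝ) : bitension (dmet uN) emb x = 0 := by
  ext a
  have hE := Real.exp_ne_zero (2 * f0 x)
  simp only [bitension, tension_emb, cov_tau, pull_emb, dmet_inv, Finset.sum_apply, Pi.smul_apply,
    Pi.sub_apply, smul_eq_mul]
  simp only [cov, pd_ctau, pd_emb']
  simp only [Fin.sum_univ_four, Fin.sum_univ_five, chrM, chrN]
  fin_cases a <;>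
    simp only [Fin.zero_eta, Fin.mk_one, Fin.reduceFinMk, riem0, riem1, riem2, riem3, riem4] <;>
    simp [uN, uM, DN, pd_f0, pd_const, P0_emb, F0_emb, A0_emb,
      B0_emb, C0_emb, kN_emb, mN_emb, tau, ctau] <;>
    field_simp <;> ring

theorem uM_ge (i : Fin 4) (q : Fin 4 → ℝ) : 0 ≤ uM i q := by
  have h : 0 ≤ f0 q := by unfold f0; positivity
  fin_cases i <;> simp [uM, h]

theorem complete_M : Complete (pull (dmet uN) emb) := by
  rw [pull_emb]
  exact complete_dmet uM (fun i => (cd_uM i).continuous) 0 uM_ge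

theorem emb_immersion (x : Fin 4 → ℝ) : Function.Injective (fderiv ℝ emb x) := by
  rw [injective_iff_map_eq_zero]
  intro v hv
  have e : fderiv ℝ emb x v = ∑ i, v i • pd i emb x := by
    conv_lhs => rw [← Finset.univ_sum_single v]
    rw [map_sum]
    refine Finset.sum_congr rfl fun i _ => ?_
    rw [pd, ← map_smul, ← Pi.single_smul]
    simp
  rw [e] at hv
  ext i
  have := congrFun hv i.succ
  simpa [pd_emb] using this

theorem emb_closedEmbedding : Topology.IsClosedEmbedding emb := by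
  have : Isometry emb := by
    refine Isometry.of_dist_eq fun x y => ?_
    apply le_antisymm
    · rw [dist_pi_le_iff dist_nonneg]
      intro a
      fin_cases a
      · simp [emb]
      · exact dist_le_pi_dist x y 0
      · exact dist_le_pi_dist x y 1
      · exact dist_le_pi_dist x y 2
      · exact dist_le_pi_dist x y 3
    · rw [dist_pi_le_iff dist_nonneg]
      intro a
      fin_cases a
      · exact dist_le_pi_dist (emb x) (emb y) 1
      · exact dist_le_pi_dist (emb x) (emb y) 2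
      · exact dist_le_pi_dist (emb x) (emb y) 3
      · exact dist_le_pi_dist (emb x) (emb y) 4
  exact this.isClosedEmbedding

end Pool.Agent.Lib.MP_44343f_gt
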